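import Pool.Agent.D0H61.CC.Stm

/-! Fourier series of the periodic sum of hats. -/

set_option autoImplicit false
set_option maxHeartbeats 400000

namespace Pool.Agent.D0H96.CC

open Filter Topology MeasureTheory Finset
open scoped FourierTransform RealInnerProductSpace
open Pool.Agent.D0H61.CC

theorem tri_nonneg (x : ℝ) : 0 ≤ tri x := le_max_left _ _

theorem tri_le_one (x : ℝ) : tri x ≤ 1 := by
  unfold tri
  have := abs_nonneg x
  exact max_le (by norm_num) (by linarith)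

theorem tri_neg (x : ℝ) : tri (-x) = tri x := by
  unfold tri
  rw [abs_neg]

theorem tri_continuous : Continuous tri := by
  unfold tri
  fun_prop

theorem tri_eq_zero {x : ℝ} (h : 1 ≤ |x|) : tri x = 0 := by
  unfold tri
  exact max_eq_left (by linarith)

theorem tri_compact : HasCompactSupport (fun x => ((tri x : ℝ) : ℂ)) := by
  apply HasCompactSupport.intro (isCompact_Icc (a := (-1 : ℝ)) (b := 1))
  intro x hx
  rw [Set.mem_Icc, not_and_or, not_le, not_le] at hx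
  have h : 1 ≤ |x| := by
    rcases hx with h | h
    · have := neg_abs_le x
      linarith
    · exact h.le.trans (le_abs_self x)
  rw [tri_eq_zero h]
  rfl

theorem tri_integrable : Integrable (fun x => ((tri x : ℝ) : ℂ)) :=
  (Complex.continuous_ofReal.comp tri_continuous).integrable_of_hasCompactSupport tri_compact

theorem integral_tri : ∫ x, tri x = 1 := by
  have h1 : ∫ x, tri x = ∫ x in (-1 : ℝ)..1, tri x := by
    rw [intervalIntegral.integral_of_le (by norm_num)]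
    symm
    apply setIntegral_eq_integral_of_forall_compl_eq_zero
    intro x hx
    rw [Set.mem_Ioc, not_and_or, not_lt, not_le] at hx
    apply tri_eq_zero
    rcases hx with h | h
    · have := neg_abs_le x
      linarith
    · exact h.le.trans (le_abs_self x)
  have h2 : ∫ x in (-1 : ℝ)..1, tri x = (∫ x in (-1 : ℝ)..0, tri x) + ∫ x in (0 : ℝ)..1, tri x :=
    (intervalIntegral.integral_add_adjacent_intervals
      (tri_continuous.intervalIntegrable _ _) (tri_continuous.intervalIntegrable _ _)).symm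
  have h3 : ∫ x in (-1 : ℝ)..0, tri x = ∫ x in (-1 : ℝ)..0, (1 + x) := by
    apply intervalIntegral.integral_congr
    intro x hx
    rw [Set.uIcc_of_le (by norm_num), Set.mem_Icc] at hx
    show tri x = 1 + x
    unfold tri
    rw [abs_of_nonpos hx.2, max_eq_right (by linarith)]
    ring
  have h4 : ∫ x in (0 : ℝ)..1, tri x = ∫ x in (0 : ℝ)..1, (1 - x) := by
    apply intervalIntegral.integral_congr
    intro x hx
    rw [Set.uIcc_of_le (by norm_num), Set.mem_Icc] at hx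
    show tri x = 1 - x
    unfold tri
    rw [abs_of_nonneg hx.1, max_eq_right (by linarith)]
  rw [h1, h2, h3, h4]
  rw [intervalIntegral.integral_add (by simp) (by simp), intervalIntegral.integral_sub (by simp) (by simp)]
  simp
  norm_num

section

variable {K : ℝ → ℝ} (h1 : Continuous K) (h2 : Integrable K)
  (h4 : ∀ x : ℝ, ((tri x : ℝ) : ℂ) = ∫ ξ, (K ξ : ℂ) * ex (2 * Real.pi * x * ξ))

include h4 in
theorem inv_eq : 𝓕⁻ (fun ξ => (K ξ : ℂ)) = fun x => ((tri x : ℝ) : ℂ) := by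
  funext x
  rw [Real.fourierInv_eq', h4 x]
  congr 1
  funext ξ
  unfold ex
  rw [smul_eq_mul, mul_comm]
  congr 2
  congr 1
  have : (⟪ξ, x⟫ : ℝ) = x * ξ := by simp
  rw [this]
  push_cast
  ring

include h1 h2 h4 in
theorem fou_eq : 𝓕 (fun x => ((tri x : ℝ) : ℂ)) = fun ξ => (K ξ : ℂ) := by
  rw [← inv_eq h4]
  apply Continuous.fourier_fourierInv_eq (Complex.continuous_ofReal.comp h1) h2.ofReal
  have h5 : 𝓕 (fun ξ => (K ξ : ℂ)) = fun x => ((tri x : ℝ) : ℂ) := by
    funext x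
    have h6 := Real.fourierInv_eq_fourier_neg (fun ξ => (K ξ : ℂ)) (-x)
    rw [neg_neg] at h6
    rw [← h6, inv_eq h4]
    show ((tri (-x) : ℝ) : ℂ) = _
    rw [tri_neg]
  show Integrable (𝓕 (fun ξ => (K ξ : ℂ)))
  rw [h5]
  exact tri_integrable

include h1 h2 h4 in
theorem K_eq (ξ : ℝ) : (K ξ : ℂ) = ∫ x, Complex.exp (((-2 * Real.pi * (ξ * x) : ℝ) : ℂ) * Complex.I) *
    ((tri x : ℝ) : ℂ) := by
  have h5 := congrFun (fou_eq h1 h2 h4) ξ
  rw [← h5, Real.fourier_eq']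
  congr 1

include h1 h2 h4 in
theorem K_zero : K 0 = 1 := by
  have h5 := K_eq h1 h2 h4 0
  have h6 : (K 0 : ℂ) = ((1 : ℝ) : ℂ) := by
    rw [h5, ← integral_tri, ← integral_complex_ofReal]
    congr 1
    funext x
    simp
  exact_mod_cast h6

include h1 h2 h4 in
theorem K_le (ξ : ℝ) : K ξ ≤ 1 := by
  have h5 := K_eq h1 h2 h4 ξ
  have h6 : ‖(K ξ : ℂ)‖ ≤ 1 := by
    rw [h5, ← integral_tri]
    refine (norm_integral_le_integral_norm _).trans (le_of_eq ?_)
    congr 1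
    funext x
    rw [norm_mul, Complex.norm_exp_ofReal_mul_I, one_mul, Complex.norm_real, Real.norm_eq_abs,
      abs_of_nonneg (tri_nonneg x)]
  rw [Complex.norm_real] at h6
  exact (le_abs_self _).trans h6

end

/-- telescoping majorant -/
noncomputable def phi (q : ℕ) (n : ℕ) : ℝ := if n ≤ q then 2 * q - n else (q : ℝ) ^ 2 / n

theorem phi_nonneg (q n : ℕ) : 0 ≤ phi q n := by
  unfold phi
  split_ifs with h
  · have : (n : ℝ) ≤ q := by exact_mod_cast h
    have h0 : (0 : ℝ) ≤ q := Nat.cast_nonneg q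
    linarith
  · positivity

theorem phi_step (q n : ℕ) (hq : 1 ≤ q) (x : ℝ) (hx1 : x ≤ 1)
    (hx2 : ((n : ℝ) + 1) ^ 2 * x ≤ (q : ℝ) ^ 2) : x ≤ phi q n - phi q (n + 1) := by
  unfold phi
  have hq0 : (0 : ℝ) < q := by exact_mod_cast hq
  by_cases h1 : n + 1 ≤ q
  · rw [if_pos h1, if_pos (by omega)]
    push_cast
    linarith
  · rw [if_neg h1]
    have hn : q ≤ n := by omega
    have hn0 : (0 : ℝ) < n := by
      have : 0 < n := by omega
      exact_mod_cast this
    have h5 : x ≤ (q : ℝ) ^ 2 / n - (q : ℝ) ^ 2 / ((n + 1 : ℕ) : ℝ) := by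
      have e : (q : ℝ) ^ 2 / n - (q : ℝ) ^ 2 / ((n + 1 : ℕ) : ℝ) = (q : ℝ) ^ 2 / (n * (n + 1)) := by
        push_cast
        field_simp
        ring
      rw [e]
      have h6 : x ≤ (q : ℝ) ^ 2 / ((n : ℝ) + 1) ^ 2 := by
        rw [le_div_iff₀ (by positivity)]
        linarith
      refine h6.trans ?_
      apply div_le_div_of_nonneg_left (by positivity) (by positivity)
      nlinarith
    by_cases h2 : n ≤ q
    · have : n = q := by omega
      subst this
      rw [if_pos le_rfl]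
      have e : (n : ℝ) ^ 2 / n = 2 * n - n := by
        field_simp
        ring
      rw [e] at h5
      exact h5
    · rw [if_neg h2]
      exact h5

theorem sum_phi (q : ℕ) (hq : 1 ≤ q) (f : ℕ → ℝ) (h1 : ∀ n, f n ≤ 1)
    (h2 : ∀ n : ℕ, ((n : ℝ) + 1) ^ 2 * f n ≤ (q : ℝ) ^ 2) (n : ℕ) : ∑ i ∈ range n, f i ≤ 2 * q := by
  have h : ∑ i ∈ range n, f i ≤ phi q 0 - phi q n := by
    induction n with
    | zero => simp
    | succ n ih =>
      rw [sum_range_succ]
      have := phi_step q n hq (f n) (h1 n) (h2 n)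
      linarith
  have h0 : phi q 0 = 2 * q := by
    unfold phi
    simp
  have := phi_nonneg q n
  linarith

/-- the Fourier coefficients -/
noncomputable def cf (K : ℝ → ℝ) (q : ℕ) (h : ℤ) : ℂ :=
  ((2 / q : ℝ) : ℂ) * (ex (-(Real.pi * h / q)) * (K (h / q) : ℂ))

theorem cf_norm {K : ℝ → ℝ} (k3 : ∀ ξ, 0 ≤ K ξ) (q : ℕ) (h : ℤ) : ‖cf K q h‖ = 2 / q * K (h / q) := by
  unfold cf
  rw [norm_mul, norm_mul]
  unfold ex
  rw [Complex.norm_exp_ofReal_mul_I, one_mul, Complex.norm_real, Complex.norm_real, Real.norm_eq_abs,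
    Real.norm_eq_abs, abs_of_nonneg (k3 _), abs_of_nonneg (by positivity)]

theorem cf_sum {K : ℝ → ℝ} (k3 : ∀ ξ, 0 ≤ K ξ) (k5 : ∀ ξ, ξ ^ 2 * K ξ ≤ 1) (kl : ∀ ξ, K ξ ≤ 1)
    (kz : K 0 = 1) (q : ℕ) (hq : 1 ≤ q) :
    Summable (fun h => ‖cf K q h‖) ∧ ∑' h, ‖cf K q h‖ ≤ 10 := by
  have hq0 : (0 : ℝ) < q := by exact_mod_cast hq
  have hb : ∀ s : ℝ, s ^ 2 = 1 → ∀ n : ℕ, (((n : ℝ) + 1) ^ 2 * K (s * (n + 1) / q) ≤ (q : ℝ) ^ 2) := by
    intro s hs n
    have h := k5 (s * (n + 1) / q)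
    have e : (s * ((n : ℝ) + 1) / q) ^ 2 = ((n : ℝ) + 1) ^ 2 / (q : ℝ) ^ 2 := by
      rw [div_pow, mul_pow, hs, one_mul]
    rw [e] at h
    have h2 : ((n : ℝ) + 1) ^ 2 / (q : ℝ) ^ 2 * K (s * (n + 1) / q) =
      ((n : ℝ) + 1) ^ 2 * K (s * (n + 1) / q) / (q : ℝ) ^ 2 := by ring
    rw [h2, div_le_iff₀ (by positivity), one_mul] at h
    exact h
  have key : ∀ s : ℝ, s ^ 2 = 1 → Summable (fun n : ℕ => 2 / (q : ℝ) * K (s * (n + 1) / q)) ∧
      ∑' n : ℕ, 2 / (q : ℝ) * K (s * (n + 1) / q) ≤ 4 := by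
    intro s hs
    have s1 := sum_phi q hq (fun n : ℕ => K (s * (n + 1) / q)) (fun n => kl _) (hb s hs)
    have t1 : Summable fun n : ℕ => K (s * (n + 1) / q) := summable_of_sum_range_le (fun n => k3 _) s1
    have u1 : ∑' n : ℕ, K (s * (n + 1) / q) ≤ 2 * q := Real.tsum_le_of_sum_range_le (fun n => k3 _) s1
    refine ⟨t1.mul_left _, ?_⟩
    rw [tsum_mul_left]
    calc 2 / (q : ℝ) * ∑' n : ℕ, K (s * ((n : ℝ) + 1) / q) ≤ 2 / q * (2 * q) :=
          mul_le_mul_of_nonneg_left u1 (by positivity)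
      _ = 4 := by
          field_simp
          norm_num
  obtain ⟨w1, w2⟩ := key 1 (by norm_num)
  obtain ⟨w3, w4⟩ := key (-1) (by norm_num)
  have e1 : (fun n : ℕ => ‖cf K q ((n + 1 : ℕ) : ℤ)‖) = fun n : ℕ => 2 / (q : ℝ) * K (1 * (n + 1) / q) := by
    funext n
    rw [cf_norm k3]
    push_cast
    rw [one_mul]
  have e2 : (fun n : ℕ => ‖cf K q (-((n : ℤ) + 1))‖) = fun n : ℕ => 2 / (q : ℝ) * K (-1 * (n + 1) / q) := by
    funext n
    rw [cf_norm k3]
    push_cast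
    congr 2
    ring
  have v1 : Summable (fun n : ℕ => ‖cf K q (n : ℤ)‖) := by
    rw [← summable_nat_add_iff 1, e1]
    exact w1
  have v2 : Summable (fun n : ℕ => ‖cf K q (-((n : ℤ) + 1))‖) := by
    rw [e2]
    exact w3
  refine ⟨Summable.of_nat_of_neg_add_one (f := fun h : ℤ => ‖cf K q h‖) v1 v2, ?_⟩
  rw [tsum_of_nat_of_neg_add_one (f := fun h : ℤ => ‖cf K q h‖) v1 v2, v1.tsum_eq_zero_add, e1, e2]
  have e0 : ‖cf K q ((0 : ℕ) : ℤ)‖ = 2 / q := by
    rw [cf_norm k3]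
    simp [kz]
  rw [e0]
  have hq1 : (1 : ℝ) ≤ q := by exact_mod_cast hq
  have h5 : 2 / (q : ℝ) ≤ 2 := by
    rw [div_le_iff₀ hq0]
    linarith
  linarith

theorem four_g {K : ℝ → ℝ} (k1 : Continuous K) (k2 : Integrable K)
    (k4 : ∀ x : ℝ, ((tri x : ℝ) : ℂ) = ∫ ξ, (K ξ : ℂ) * ex (2 * Real.pi * x * ξ)) (q : ℕ) (hq : 1 ≤ q)
    (n : ℤ) : 𝓕 (fun u : ℝ => (2 : ℂ) * ((tri (q * u - 1 / 2) : ℝ) : ℂ)) (n : ℝ) = cf K q n := by
  have hq0 : (0 : ℝ) < q := by exact_mod_cast hq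
  have hq0' : (q : ℂ) ≠ 0 := by exact_mod_cast hq0.ne'
  rw [Real.fourier_eq']
  unfold cf
  rw [K_eq k1 k2 k4]
  set G : ℝ → ℂ := fun x => 2 * (Complex.exp (((-2 * Real.pi * (n * ((x + 1 / 2) / q)) : ℝ) : ℂ) * Complex.I) *
    ((tri x : ℝ) : ℂ)) with hG
  have e1 : ∫ v : ℝ, Complex.exp (((-2 * Real.pi * ⟪v, (n : ℝ)⟫ : ℝ) : ℂ) * Complex.I) •
      ((2 : ℂ) * ((tri (q * v - 1 / 2) : ℝ) : ℂ)) = ∫ v : ℝ, G (q * v - 1 / 2) := by
    congr 1
    funext v
    rw [hG]
    simp only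
    have e2 : (⟪v, (n : ℝ)⟫ : ℝ) = n * ((q * v - 1 / 2 + 1 / 2) / q) := by
      have : (⟪v, (n : ℝ)⟫ : ℝ) = n * v := by simp
      rw [this]
      field_simp
      ring
    rw [e2, smul_eq_mul]
    ring
  rw [e1]
  have e3 : ∫ v : ℝ, G (q * v - 1 / 2) = |(q : ℝ)⁻¹| • ∫ x : ℝ, G (x - 1 / 2) :=
    Measure.integral_comp_mul_left (fun x => G (x - 1 / 2)) (q : ℝ)
  rw [e3, integral_sub_right_eq_self G (1 / 2), hG]
  rw [integral_const_mul, abs_of_nonneg (by positivity)]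
  have e4 : ∫ x : ℝ, Complex.exp (((-2 * Real.pi * (n * ((x + 1 / 2) / q)) : ℝ) : ℂ) * Complex.I) *
      ((tri x : ℝ) : ℂ) = ex (-(Real.pi * n / q)) *
      ∫ x : ℝ, Complex.exp (((-2 * Real.pi * ((n / q) * x) : ℝ) : ℂ) * Complex.I) * ((tri x : ℝ) : ℂ) := by
    rw [← integral_const_mul]
    congr 1
    funext x
    have e5 : Complex.exp (((-2 * Real.pi * (n * ((x + 1 / 2) / q)) : ℝ) : ℂ) * Complex.I) =
        ex (-(Real.pi * n / q)) * Complex.exp (((-2 * Real.pi * ((n / q) * x) : ℝ) : ℂ) * Complex.I) := by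
      unfold ex
      rw [← Complex.exp_add]
      congr 1
      push_cast
      ring
    rw [e5, mul_assoc]
  rw [e4]
  rw [Complex.real_smul]
  push_cast
  ring

theorem t_HAT (hT : S_TRI) : S_HAT := by
  intro q hq
  obtain ⟨K, k1, k2, k3, k5, k4⟩ := hT
  have hq0 : (0 : ℝ) < q := by exact_mod_cast hq
  have kz := K_zero k1 k2 k4
  have kl := K_le k1 k2 k4
  obtain ⟨c1, c2⟩ := cf_sum k3 k5 kl kz q hq
  refine ⟨cf K q, c1, c2, ?_, ?_⟩
  · unfold cf ex
    simp [kz]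
  · intro y
    set g : ℝ → ℂ := fun u => (2 : ℂ) * ((tri (q * u - 1 / 2) : ℝ) : ℂ) with hg
    have gc : Continuous g := by
      rw [hg]
      exact continuous_const.mul (Complex.continuous_ofReal.comp (tri_continuous.comp (by fun_prop)))
    have gs : HasCompactSupport g := by
      apply HasCompactSupport.intro (isCompact_Icc (a := (-2 : ℝ)) (b := 2))
      intro x hx
      rw [Set.mem_Icc, not_and_or, not_le, not_le] at hx
      have hq1 : (1 : ℝ) ≤ q := by exact_mod_cast hq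
      have h : 1 ≤ |(q : ℝ) * x - 1 / 2| := by
        rcases hx with h | h
        · have h8 : (q : ℝ) * x ≤ 1 * x := by nlinarith
          have := neg_abs_le ((q : ℝ) * x - 1 / 2)
          linarith
        · have h8 : 1 * x ≤ (q : ℝ) * x := by nlinarith
          have := le_abs_self ((q : ℝ) * x - 1 / 2)
          linarith
      rw [hg]
      simp only
      rw [tri_eq_zero h]
      simp
    have gO : g =O[cocompact ℝ] fun x : ℝ => |x| ^ (-(2 : ℝ)) := by
      have h8 : g =ᶠ[cocompact ℝ] fun _ => (0 : ℂ) := by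
        have := hasCompactSupport_iff_eventuallyEq.1 gs
        rw [coclosedCompact_eq_cocompact] at this
        exact this
      exact h8.trans_isBigO (Asymptotics.isBigO_zero _ _)
    have gF : ∀ n : ℤ, 𝓕 g (n : ℝ) = cf K q n := four_g k1 k2 k4 q hq
    have gS : Summable fun n : ℤ => 𝓕 g (n : ℝ) := by
      have h8 : (fun n : ℤ => 𝓕 g (n : ℝ)) = cf K q := funext gF
      rw [h8]
      exact c1.of_norm
    have hP := Real.tsum_eq_tsum_fourier_of_rpow_decay_of_summable gc (b := 2) (by norm_num) gO gS (y / q)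
    have e5 : ((hat q y : ℝ) : ℂ) = ∑' n : ℤ, g (y / q + n) := by
      unfold hat
      rw [Complex.ofReal_tsum, ← (Equiv.neg ℤ).tsum_eq]
      congr 1
      funext n
      rw [hg]
      simp only [Equiv.neg_apply]
      push_cast
      congr 3
      field_simp
      ring
    rw [e5, hP]
    congr 1
    funext n
    rw [gF, fourier_coe_apply]
    congr 1
    unfold ex
    congr 1
    push_cast
    ring

end Pool.Agent.D0H96.CC
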