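import Pool.Agent.D0H96.CC.Sv1
import Pool.Agent.H376R2.MR.Selw

/-! The upper bound sieve in mean over `α`. -/

set_option autoImplicit false
set_option maxHeartbeats 400000

namespace Pool.Agent.D0H96.CC

open Filter Topology MeasureTheory Finset
open Pool.Agent.D0H61.CC

/-- the exponential sums are small in mean, for all nonzero frequencies -/
theorem EE_small {κ γ R CL : ℝ} (hγ : 0 < γ)
    (hLO : ∀ (N : ℕ) (G : Finset ℕ), 1 ≤ N → (∀ n ∈ G, N < n ∧ n ≤ 2 * N) → ∀ u v q : ℝ, 1 ≤ q →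
      (1 / q ≤ |v| ∨ (v = 0 ∧ 1 / q ≤ |u|)) →
      ∫ α in Set.Icc (1 / R) R, ‖∑ n ∈ G, ex (n * (u * α + v * α ^ κ))‖ ≤ CL * q * (N : ℝ) ^ (3 / 4 : ℝ))
    (N : ℕ) (G : Finset ℕ) (hN : 1 ≤ N) (hG : ∀ n ∈ G, N < n ∧ n ≤ 2 * N) (D q q' : ℕ) (hD : 1 ≤ D)
    (hq : 1 ≤ q) (hq' : 1 ≤ q') (hqD : q ≤ D ^ 2) (hqD' : q' ≤ D ^ 2) (p : ℤ × ℤ) (hp : p ≠ (0, 0)) :
    ∫ α in Set.Icc (1 / R) R, ‖EE κ γ q q' G p α‖ ≤
      CL * ((1 + 1 / γ) * (D : ℝ) ^ 2) * (N : ℝ) ^ (3 / 4 : ℝ) := by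
  have hq0 : (0 : ℝ) < q := by exact_mod_cast hq
  have hq'0 : (0 : ℝ) < q' := by exact_mod_cast hq'
  have hD0 : (1 : ℝ) ≤ D := by exact_mod_cast hD
  have hD2 : (1 : ℝ) ≤ (D : ℝ) ^ 2 := one_le_pow₀ hD0
  have hqr : (q : ℝ) ≤ (D : ℝ) ^ 2 := by exact_mod_cast hqD
  have hq'r : (q' : ℝ) ≤ (D : ℝ) ^ 2 := by exact_mod_cast hqD'
  have hg0 : 0 < 1 / γ := by positivity
  have hπ := Real.pi_gt_three
  have hQ : 1 ≤ (1 + 1 / γ) * (D : ℝ) ^ 2 := by nlinarith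
  refine hLO N G hN hG (2 * Real.pi * p.1 / q) (2 * Real.pi * γ * p.2 / q') _ hQ ?_
  by_cases h2 : p.2 = 0
  · have h1 : p.1 ≠ 0 := fun h1 => hp (Prod.ext h1 h2)
    right
    refine ⟨by simp [h2], ?_⟩
    have h3 : (1 : ℝ) ≤ |(p.1 : ℝ)| := by
      rw [← Int.cast_abs]
      exact_mod_cast Int.one_le_abs h1
    rw [abs_div, abs_mul, abs_of_pos (show (0 : ℝ) < 2 * Real.pi by positivity), abs_of_pos hq0,
      div_le_div_iff₀ (by positivity) hq0]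
    have h4 : (q : ℝ) ≤ (1 + 1 / γ) * (D : ℝ) ^ 2 := by nlinarith
    have h5 : 1 ≤ 2 * Real.pi * |(p.1 : ℝ)| := by nlinarith
    nlinarith
  · left
    have h3 : (1 : ℝ) ≤ |(p.2 : ℝ)| := by
      rw [← Int.cast_abs]
      exact_mod_cast Int.one_le_abs h2
    rw [abs_div, abs_mul, abs_of_pos (show (0 : ℝ) < 2 * Real.pi * γ by positivity), abs_of_pos hq'0,
      div_le_div_iff₀ (by positivity) hq'0]
    have h4 : γ * ((1 + 1 / γ) * (D : ℝ) ^ 2) = (γ + 1) * (D : ℝ) ^ 2 := by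
      field_simp
    have h5 : (1 : ℝ) ≤ 2 * Real.pi * |(p.2 : ℝ)| := by nlinarith
    have h6 : (q' : ℝ) ≤ γ * ((1 + 1 / γ) * (D : ℝ) ^ 2) := by
      rw [h4]
      nlinarith
    calc 1 * (q' : ℝ) ≤ γ * ((1 + 1 / γ) * (D : ℝ) ^ 2) := by linarith
      _ ≤ (2 * Real.pi * |(p.2 : ℝ)|) * (γ * ((1 + 1 / γ) * (D : ℝ) ^ 2)) := by
          have : 0 ≤ γ * ((1 + 1 / γ) * (D : ℝ) ^ 2) := by positivity
          nlinarith
      _ = 2 * Real.pi * γ * |(p.2 : ℝ)| * ((1 + 1 / γ) * (D : ℝ) ^ 2) := by ring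

/-- the mean value of the weights -/
noncomputable def mvD (l : ℕ → ℝ) (D : ℕ) : ℝ := ∑ d ∈ Icc 1 D, ∑ e ∈ Icc 1 D, l d * l e / (Nat.lcm d e : ℝ)

theorem mvD_eq (l : ℕ → ℝ) (D : ℕ) :
    mvD l D = ∑ z ∈ Icc 1 D ×ˢ Icc 1 D, l z.1 * l z.2 / (Nat.lcm z.1 z.2 : ℝ) := by
  unfold mvD
  rw [sum_product]

/-- the finite form -/
theorem sieve {κ γ : ℝ} {a b : ℤ} {R : ℝ} (hR : 1 ≤ R) (hH : S_HAT) (l : ℕ → ℝ) (hl1 : l 1 = 1)
    (hl : ∀ d, |l d| ≤ 1) (D : ℕ) (hD : 1 ≤ D) (G : Finset ℕ) {B : Set ℝ}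
    (hBR : B ⊆ Set.Icc (1 / R) R) {M : ℝ} (hM0 : 0 ≤ M)
    (hM : ∀ q q' : ℕ, 1 ≤ q → 1 ≤ q' → q ≤ D ^ 2 → q' ≤ D ^ 2 → ∀ p : ℤ × ℤ, p ≠ (0, 0) →
      ∫ α in Set.Icc (1 / R) R, ‖EE κ γ q q' G p α‖ ≤ M)
    (hDa : ∀ n ∈ G, ∀ α ∈ B, (D : ℤ) < ⌊α * n⌋ + a) (hDb : ∀ n ∈ G, ∀ α ∈ B, (D : ℤ) < ⌊γ * α ^ κ * n⌋ + b)
    (hB : MeasurableSet B) :
    ∫ α in B, (Mc κ γ a b G α : ℝ) ≤ 4 * mvD l D ^ 2 * G.card * (volume B).toReal + 100 * (D : ℝ) ^ 4 * M := by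
  classical
  choose c hc1 hc2 hc3 hc4 using hH
  have hC : ∀ q (hq : 1 ≤ q), Coef q (c q hq) := fun q hq => ⟨hc1 q hq, hc2 q hq, hc3 q hq, hc4 q hq⟩
  set P := Icc 1 D ×ˢ Icc 1 D with hP
  have hlcm : ∀ z ∈ P, 1 ≤ Nat.lcm z.1 z.2 ∧ Nat.lcm z.1 z.2 ≤ D ^ 2 := by
    intro z hz
    rw [hP, mem_product, mem_Icc, mem_Icc] at hz
    refine ⟨Nat.lcm_pos (by omega) (by omega), ?_⟩
    have h1 : Nat.lcm z.1 z.2 ≤ z.1 * z.2 := Nat.lcm_le_mul (by omega) (by omega)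
    have h2 : z.1 * z.2 ≤ D * D := Nat.mul_le_mul hz.1.2 hz.2.2
    nlinarith
  set w : ℕ × ℕ → ℝ := fun z => l z.1 * l z.2 with hw
  have hw1 : ∀ z, |w z| ≤ 1 := by
    intro z
    rw [hw]
    simp only [abs_mul]
    have := hl z.1
    have h2 := hl z.2
    have h3 := abs_nonneg (l z.1)
    have h4 := abs_nonneg (l z.2)
    nlinarith
  -- the pointwise bound
  have hpt : ∀ α ∈ B, (Mc κ γ a b G α : ℝ) ≤
      ∑ z ∈ P, ∑ z' ∈ P, w z * w z' * HH κ γ a b (Nat.lcm z.1 z.2) (Nat.lcm z'.1 z'.2) G α := by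
    intro α hα
    have h1 : (Mc κ γ a b G α : ℝ) ≤ ∑ n ∈ G, SS l D a (α * n) * SS l D b (γ * α ^ κ * n) := by
      unfold Mc
      rw [card_filter]
      push_cast
      refine sum_le_sum fun n hn => ?_
      split_ifs with h
      · have e1 := one_le_SS l hl1 D hD a (α * n) h.1 (hDa n hn α hα)
        have e2 := one_le_SS l hl1 D hD b (γ * α ^ κ * n) h.2 (hDb n hn α hα)
        nlinarith
      · exact mul_nonneg (SS_nonneg _ _ _ _) (SS_nonneg _ _ _ _)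
    refine h1.trans (le_of_eq ?_)
    have h2 : ∀ n ∈ G, SS l D a (α * n) * SS l D b (γ * α ^ κ * n) = ∑ z ∈ P, ∑ z' ∈ P,
        (l z.1 * l z.2 * hat (Nat.lcm z.1 z.2) (α * n + a)) *
          (l z'.1 * l z'.2 * hat (Nat.lcm z'.1 z'.2) (γ * α ^ κ * n + b)) := by
      intro n _
      unfold SS
      rw [sum_mul_sum]
    rw [sum_congr rfl h2, sum_comm]
    refine sum_congr rfl fun z _ => ?_
    rw [sum_comm]
    refine sum_congr rfl fun z' _ => ?_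
    unfold HH
    rw [mul_sum]
    refine sum_congr rfl fun n _ => ?_
    rw [hw]
    simp only
    ring
  have hint : ∀ z ∈ P, ∀ z' ∈ P, IntegrableOn (HH κ γ a b (Nat.lcm z.1 z.2) (Nat.lcm z'.1 z'.2) G) B :=
    fun z hz z' hz' => ((HH_contOn (hC _ (hlcm z hz).1) (hC _ (hlcm z' hz').1) hR).integrableOn_compact
      isCompact_Icc).mono_set hBR
  have hint2 : IntegrableOn (fun α => ∑ z ∈ P, ∑ z' ∈ P, w z * w z' *
      HH κ γ a b (Nat.lcm z.1 z.2) (Nat.lcm z'.1 z'.2) G α) B :=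
    integrable_finsetSum _ fun z hz => integrable_finsetSum _ fun z' hz' => (hint z hz z' hz').const_mul _
  have h2 : ∫ α in B, (Mc κ γ a b G α : ℝ) ≤ ∫ α in B, ∑ z ∈ P, ∑ z' ∈ P, w z * w z' *
      HH κ γ a b (Nat.lcm z.1 z.2) (Nat.lcm z'.1 z'.2) G α := by
    apply integral_mono_of_nonneg
    · exact Eventually.of_forall fun α => Nat.cast_nonneg _
    · exact hint2
    · filter_upwards [ae_restrict_mem hB] with α hα using hpt α hα
  have h3 : ∫ α in B, ∑ z ∈ P, ∑ z' ∈ P, w z * w z' *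
      HH κ γ a b (Nat.lcm z.1 z.2) (Nat.lcm z'.1 z'.2) G α = ∑ z ∈ P, ∑ z' ∈ P, w z * w z' *
      ∫ α in B, HH κ γ a b (Nat.lcm z.1 z.2) (Nat.lcm z'.1 z'.2) G α := by
    rw [integral_finsetSum _ fun z hz => integrable_finsetSum _ fun z' hz' => (hint z hz z' hz').const_mul _]
    refine sum_congr rfl fun z hz => ?_
    rw [integral_finsetSum _ fun z' hz' => (hint z hz z' hz').const_mul _]
    refine sum_congr rfl fun z' hz' => ?_
    rw [integral_const_mul]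
  have h4 : ∑ z ∈ P, ∑ z' ∈ P, w z * w z' *
      ∫ α in B, HH κ γ a b (Nat.lcm z.1 z.2) (Nat.lcm z'.1 z'.2) G α ≤
      ∑ z ∈ P, ∑ z' ∈ P, (w z * w z' * (2 / (Nat.lcm z.1 z.2 : ℝ) * (2 / (Nat.lcm z'.1 z'.2 : ℝ)) * G.card *
        (volume B).toReal) + 100 * M) := by
    refine sum_le_sum fun z hz => sum_le_sum fun z' hz' => ?_
    have h5 := pair (a := a) (b := b) (hC _ (hlcm z hz).1) (hC _ (hlcm z' hz').1) hR hBR hM0
      (hM _ _ (hlcm z hz).1 (hlcm z' hz').1 (hlcm z hz).2 (hlcm z' hz').2)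
    set X := ∫ α in B, HH κ γ a b (Nat.lcm z.1 z.2) (Nat.lcm z'.1 z'.2) G α
    set Y := 2 / (Nat.lcm z.1 z.2 : ℝ) * (2 / (Nat.lcm z'.1 z'.2 : ℝ)) * G.card * (volume B).toReal
    have h6 : |w z * w z' * (X - Y)| ≤ 100 * M := by
      rw [abs_mul, abs_mul]
      have h7 := hw1 z
      have h8 := hw1 z'
      have h9 := abs_nonneg (w z)
      have h10 := abs_nonneg (w z')
      have h11 : |w z| * |w z'| ≤ 1 := by nlinarith
      calc |w z| * |w z'| * |X - Y| ≤ 1 * |X - Y| := mul_le_mul_of_nonneg_right h11 (abs_nonneg _)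
        _ ≤ 100 * M := by linarith
    have h7 := le_abs_self (w z * w z' * (X - Y))
    have h8 : w z * w z' * (X - Y) = w z * w z' * X - w z * w z' * Y := by ring
    linarith
  have h5 : ∑ z ∈ P, ∑ z' ∈ P, (w z * w z' * (2 / (Nat.lcm z.1 z.2 : ℝ) * (2 / (Nat.lcm z'.1 z'.2 : ℝ)) * G.card *
        (volume B).toReal) + 100 * M) = 4 * mvD l D ^ 2 * G.card * (volume B).toReal + 100 * (D : ℝ) ^ 4 * M := by
    simp only [sum_add_distrib]
    congr 1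
    · rw [mvD_eq, sq, sum_mul_sum]
      simp only [mul_sum, sum_mul]
      refine sum_congr rfl fun z _ => sum_congr rfl fun z' _ => ?_
      rw [hw]
      simp only
      ring
    · rw [sum_const, sum_const, hP, card_product, Nat.card_Icc]
      simp only [nsmul_eq_mul]
      push_cast
      ring_nf
  calc _ ≤ _ := h2
    _ = _ := h3
    _ ≤ _ := h4
    _ = _ := h5

theorem t_SV (hLO : S_LO) (hH : S_HAT) : S_SV := by
  intro κ γ a b R hκ hκ1 hγ hR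
  obtain ⟨CL, hCL, hLO'⟩ := hLO κ R hκ hκ1 hR
  have hR0 : 0 < R := by linarith
  -- a lower bound for `α ^ κ`
  obtain ⟨s, hs, hs1⟩ : ∃ s : ℝ, 0 < s ∧ ∀ α ∈ Set.Icc (1 / R) R, s ≤ α ∧ s ≤ γ * α ^ κ := by
    have h1 : ∃ t : ℝ, 0 < t ∧ ∀ α ∈ Set.Icc (1 / R) R, t ≤ α ^ κ := by
      rcases le_total 0 κ with h | h
      · refine ⟨(1 / R) ^ κ, by positivity, fun α hα => Real.rpow_le_rpow (by positivity) hα.1 h⟩
      · refine ⟨R ^ κ, by positivity, fun α hα => ?_⟩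
        have h0 : 0 < α := lt_of_lt_of_le (by positivity) hα.1
        exact Real.rpow_le_rpow_of_nonpos h0 hα.2 h
    obtain ⟨t, ht, ht1⟩ := h1
    refine ⟨min (1 / R) (γ * t), by positivity, fun α hα => ⟨(min_le_left _ _).trans hα.1, ?_⟩⟩
    exact (min_le_right _ _).trans (mul_le_mul_of_nonneg_left (ht1 α hα) hγ.le)
  refine ⟨160000, by norm_num, 1 / 10, by norm_num, by norm_num, ?_⟩
  -- asymptotics
  set C1 : ℝ := 100 * (CL * (1 + 1 / γ)) with hC1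
  have hC1p : 0 < C1 := by positivity
  have e1 : ∀ᶠ N : ℕ in atTop, C1 * (N : ℝ) ^ (81 / 100 : ℝ) ≤ (N : ℝ) ^ (1 - 1 / 10 : ℝ) := by
    have h1 : Tendsto (fun N : ℕ => (N : ℝ) ^ (9 / 100 : ℝ)) atTop atTop :=
      (tendsto_rpow_atTop (by norm_num)).comp tendsto_natCast_atTop_atTop
    filter_upwards [h1.eventually_ge_atTop C1, eventually_ge_atTop 1] with N h2 h3
    have hN : (0 : ℝ) < N := by exact_mod_cast h3
    calc C1 * (N : ℝ) ^ (81 / 100 : ℝ) ≤ (N : ℝ) ^ (9 / 100 : ℝ) * (N : ℝ) ^ (81 / 100 : ℝ) :=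
          mul_le_mul_of_nonneg_right h2 (by positivity)
      _ = (N : ℝ) ^ (1 - 1 / 10 : ℝ) := by
          rw [← Real.rpow_add hN]
          norm_num
  have e2 : ∀ᶠ N : ℕ in atTop, (N : ℝ) ^ (1 / 100 : ℝ) + |(a : ℝ)| + |(b : ℝ)| + 2 ≤ s * N := by
    have h1 : Tendsto (fun N : ℕ => s * (N : ℝ) ^ (99 / 100 : ℝ)) atTop atTop :=
      ((tendsto_rpow_atTop (by norm_num)).comp tendsto_natCast_atTop_atTop).const_mul_atTop hs
    filter_upwards [h1.eventually_ge_atTop (1 + |(a : ℝ)| + |(b : ℝ)| + 2), eventually_ge_atTop 1] with N h2 h3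
    have hN : (0 : ℝ) < N := by exact_mod_cast h3
    have hN1 : (1 : ℝ) ≤ N := by exact_mod_cast h3
    have h4 : 1 ≤ (N : ℝ) ^ (1 / 100 : ℝ) := Real.one_le_rpow hN1 (by norm_num)
    have h5 : s * (N : ℝ) = s * (N : ℝ) ^ (99 / 100 : ℝ) * (N : ℝ) ^ (1 / 100 : ℝ) := by
      rw [mul_assoc, ← Real.rpow_add hN]
      norm_num
    have h6 : 0 ≤ |(a : ℝ)| + |(b : ℝ)| + 2 := by positivity
    rw [h5]
    calc (N : ℝ) ^ (1 / 100 : ℝ) + |(a : ℝ)| + |(b : ℝ)| + 2 ≤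
          (1 + |(a : ℝ)| + |(b : ℝ)| + 2) * (N : ℝ) ^ (1 / 100 : ℝ) := by nlinarith
      _ ≤ _ := mul_le_mul_of_nonneg_right h2 (by positivity)
  have e3 : ∀ᶠ N : ℕ in atTop, (100 : ℝ) ≤ (N : ℝ) ^ (1 / 100 : ℝ) :=
    ((tendsto_rpow_atTop (by norm_num)).comp tendsto_natCast_atTop_atTop).eventually_ge_atTop 100
  filter_upwards [e1, e2, e3, eventually_ge_atTop 2] with N f1 f2 f3 hN2 G hG B hB hBR
  have hN0 : (0 : ℝ) < N := by
    have : 0 < N := by omega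
    exact_mod_cast this
  set T : ℝ := (N : ℝ) ^ (1 / 100 : ℝ) with hT
  set D : ℕ := ⌊T⌋₊ with hDdef
  have hT0 : 0 ≤ T := by positivity
  have hDT : (D : ℝ) ≤ T := Nat.floor_le hT0
  have hDT2 : T < D + 1 := Nat.lt_floor_add_one T
  have hD2 : 2 ≤ D := by
    have : (2 : ℝ) ≤ D := by linarith
    exact_mod_cast this
  obtain ⟨l, l1, l2, -, -, l5, l6⟩ := Pool.Agent.H376R2.MR.sel_weights D hD2
  have hs' := fun (q q' : ℕ) (hq : 1 ≤ q) (hq' : 1 ≤ q') (hqD : q ≤ D ^ 2) (hqD' : q' ≤ D ^ 2) =>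
    EE_small (κ := κ) hγ hLO' N G (by omega) hG D q q' (by omega) hq hq' hqD hqD'
  have hfl : ∀ (y : ℝ) (n : ℕ) (z : ℤ), s ≤ y → N < n → |(z : ℝ)| ≤ |(a : ℝ)| + |(b : ℝ)| →
      (D : ℤ) < ⌊y * n⌋ + z := by
    intro y n z hy hn hz
    have h1 : (N : ℝ) ≤ n := by exact_mod_cast hn.le
    have h2 : s * N ≤ y * n := mul_le_mul hy h1 hN0.le (hs.le.trans hy)
    have h3 := Int.lt_floor_add_one (y * n)
    have h4 := neg_abs_le (z : ℝ)
    have h5 : ((D : ℤ) : ℝ) < ((⌊y * n⌋ + z : ℤ) : ℝ) := by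
      push_cast
      linarith
    exact_mod_cast h5
  have hmain := sieve (κ := κ) (γ := γ) (a := a) (b := b) hR hH l l1 l2 D (by omega) G hBR
    (M := CL * ((1 + 1 / γ) * (D : ℝ) ^ 2) * (N : ℝ) ^ (3 / 4 : ℝ)) (by positivity) hs'
    (fun n hn α hα => hfl α n a (hs1 α (hBR hα)).1 (hG n hn).1 (by
      have := abs_nonneg (b : ℝ)
      linarith))
    (fun n hn α hα => hfl (γ * α ^ κ) n b (hs1 α (hBR hα)).2 (hG n hn).1 (by
      have := abs_nonneg (a : ℝ)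
      linarith)) hB
  refine hmain.trans (add_le_add ?_ ?_)
  · -- the main term
    have hlogN : 0 < Real.log N := Real.log_pos (by exact_mod_cast (by omega : 1 < N))
    have hlogD : Real.log N / 200 ≤ Real.log D := by
      have h1 : Real.log T = Real.log N / 100 := by
        rw [hT, Real.log_rpow hN0]
        ring
      have hD0 : (0 : ℝ) < D := by
        have : 0 < D := by omega
        exact_mod_cast this
      have h2 : T ≤ D ^ 2 := by nlinarith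
      have h3 : Real.log T ≤ Real.log ((D : ℝ) ^ 2) := Real.log_le_log (by linarith) h2
      rw [Real.log_pow, h1] at h3
      push_cast at h3
      linarith
    have h4 : mvD l D ≤ 200 / Real.log N := by
      refine l6.trans ?_
      rw [div_le_div_iff₀ (by linarith [div_pos hlogN (show (0 : ℝ) < 200 by norm_num)]) hlogN]
      linarith
    have h5 : 0 ≤ mvD l D := l5
    have h6 : mvD l D ^ 2 ≤ (200 / Real.log N) ^ 2 := pow_le_pow_left₀ h5 h4 2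
    have h7 : 4 * mvD l D ^ 2 ≤ 160000 / Real.log N ^ 2 := by
      rw [div_pow] at h6
      calc 4 * mvD l D ^ 2 ≤ 4 * (200 ^ 2 / Real.log N ^ 2) := by linarith
        _ = 160000 / Real.log N ^ 2 := by
            rw [← mul_div_assoc]
            norm_num
    calc 4 * mvD l D ^ 2 * G.card * (volume B).toReal ≤
          160000 / Real.log N ^ 2 * G.card * (volume B).toReal := by gcongr
      _ = 160000 * G.card / Real.log N ^ 2 * (volume B).toReal := by ring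
  · -- the error term
    refine le_trans ?_ f1
    have h1 : (D : ℝ) ^ 6 ≤ T ^ 6 := pow_le_pow_left₀ (Nat.cast_nonneg _) hDT 6
    have h2 : T ^ 6 = (N : ℝ) ^ (6 / 100 : ℝ) := by
      rw [hT, ← Real.rpow_natCast, ← Real.rpow_mul hN0.le]
      norm_num
    have h3 : (N : ℝ) ^ (6 / 100 : ℝ) * (N : ℝ) ^ (3 / 4 : ℝ) = (N : ℝ) ^ (81 / 100 : ℝ) := by
      rw [← Real.rpow_add hN0]
      norm_num
    calc 100 * (D : ℝ) ^ 4 * (CL * ((1 + 1 / γ) * (D : ℝ) ^ 2) * (N : ℝ) ^ (3 / 4 : ℝ)) =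
          C1 * ((D : ℝ) ^ 6 * (N : ℝ) ^ (3 / 4 : ℝ)) := by
          rw [hC1]
          ring
      _ ≤ C1 * ((N : ℝ) ^ (6 / 100 : ℝ) * (N : ℝ) ^ (3 / 4 : ℝ)) := by
          rw [← h2]
          gcongr
      _ = C1 * (N : ℝ) ^ (81 / 100 : ℝ) := by rw [h3]

end Pool.Agent.D0H96.CC
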