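import Pool.Agent.D0H96.CC.Hat

/-! The upper bound sieve in mean over `α`: one pair of moduli, and the sieve inequality. -/

set_option autoImplicit false
set_option maxHeartbeats 400000

namespace Pool.Agent.D0H96.CC

open Filter Topology MeasureTheory Finset
open Pool.Agent.D0H61.CC

theorem ex_norm (x : ℝ) : ‖ex x‖ = 1 := by
  unfold ex
  rw [Complex.norm_exp_ofReal_mul_I]

theorem ex_add (x y : ℝ) : ex (x + y) = ex x * ex y := by
  unfold ex
  rw [← Complex.exp_add]
  congr 1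
  push_cast
  ring

theorem ex_zero : ex 0 = 1 := by
  unfold ex
  simp

theorem ex_continuous : Continuous ex := by
  unfold ex
  fun_prop

/-- the properties of the Fourier coefficients of `hat q` -/
structure Coef (q : ℕ) (c : ℤ → ℂ) : Prop where
  summable : Summable fun h => ‖c h‖
  le : ∑' h, ‖c h‖ ≤ 10
  zero : c 0 = ((2 / q : ℝ) : ℂ)
  eq : ∀ y : ℝ, ((hat q y : ℝ) : ℂ) = ∑' h : ℤ, c h * ex (2 * Real.pi * h * y / q)

theorem Coef.continuous {q : ℕ} {c : ℤ → ℂ} (h : Coef q c) : Continuous (hat q) := by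
  have h1 : Continuous fun y : ℝ => ∑' k : ℤ, c k * ex (2 * Real.pi * k * y / q) := by
    apply continuous_tsum (u := fun k => ‖c k‖) _ h.summable
    · intro k y
      rw [norm_mul, ex_norm, mul_one]
    · intro k
      exact continuous_const.mul (ex_continuous.comp (by fun_prop))
  have h2 : hat q = fun y => (∑' k : ℤ, c k * ex (2 * Real.pi * k * y / q)).re := by
    funext y
    rw [← h.eq y, Complex.ofReal_re]
  rw [h2]
  exact Complex.continuous_re.comp h1

/-- the product of two hats, summed over `G` -/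
noncomputable def HH (κ γ : ℝ) (a b : ℤ) (q q' : ℕ) (G : Finset ℕ) (α : ℝ) : ℝ :=
  ∑ n ∈ G, hat q (α * n + a) * hat q' (γ * α ^ κ * n + b)

theorem HH_contOn {κ γ : ℝ} {a b : ℤ} {q q' : ℕ} {G : Finset ℕ} {c c' : ℤ → ℂ} (h : Coef q c)
    (h' : Coef q' c') {R : ℝ} (hR : 1 ≤ R) : ContinuousOn (HH κ γ a b q q' G) (Set.Icc (1 / R) R) := by
  have h0 : ContinuousOn (fun α : ℝ => α ^ κ) (Set.Icc (1 / R) R) := by
    apply ContinuousOn.rpow_const continuousOn_id
    intro x hx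
    left
    have : 0 < 1 / R := by positivity
    exact (this.trans_le hx.1).ne'
  unfold HH
  apply continuousOn_finsetSum
  intro n _
  apply ContinuousOn.mul
  · exact (h.continuous.comp (by fun_prop)).continuousOn
  · apply h'.continuous.comp_continuousOn
    exact (((continuousOn_const.mul h0).mul continuousOn_const).add continuousOn_const)

/-- the exponential sum -/
noncomputable def EE (κ γ : ℝ) (q q' : ℕ) (G : Finset ℕ) (p : ℤ × ℤ) (α : ℝ) : ℂ :=
  ∑ n ∈ G, ex (n * (2 * Real.pi * p.1 / q * α + 2 * Real.pi * γ * p.2 / q' * α ^ κ))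

theorem EE_norm_le (κ γ : ℝ) (q q' : ℕ) (G : Finset ℕ) (p : ℤ × ℤ) (α : ℝ) :
    ‖EE κ γ q q' G p α‖ ≤ G.card := by
  unfold EE
  refine (norm_sum_le _ _).trans ?_
  simp only [ex_norm]
  simp

theorem EE_contOn (κ γ : ℝ) (q q' : ℕ) (G : Finset ℕ) (p : ℤ × ℤ) {R : ℝ} (hR : 1 ≤ R) :
    ContinuousOn (EE κ γ q q' G p) (Set.Icc (1 / R) R) := by
  have h0 : ContinuousOn (fun α : ℝ => α ^ κ) (Set.Icc (1 / R) R) := by
    apply ContinuousOn.rpow_const continuousOn_id
    intro x hx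
    left
    have : 0 < 1 / R := by positivity
    exact (this.trans_le hx.1).ne'
  unfold EE
  apply continuousOn_finsetSum
  intro n _
  apply ex_continuous.comp_continuousOn
  apply continuousOn_const.mul
  apply ContinuousOn.add (by fun_prop)
  exact continuousOn_const.mul h0

theorem HH_eq {κ γ : ℝ} {a b : ℤ} {q q' : ℕ} {G : Finset ℕ} {c c' : ℤ → ℂ} (h : Coef q c)
    (h' : Coef q' c') (α : ℝ) :
    ((HH κ γ a b q q' G α : ℝ) : ℂ) = ∑' p : ℤ × ℤ, (c p.1 * ex (2 * Real.pi * p.1 * a / q)) *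
      (c' p.2 * ex (2 * Real.pi * p.2 * b / q')) * EE κ γ q q' G p α := by
  unfold HH EE
  push_cast
  have h1 : ∀ n ∈ G, ((hat q (α * n + a) : ℝ) : ℂ) * ((hat q' (γ * α ^ κ * n + b) : ℝ) : ℂ) =
      ∑' p : ℤ × ℤ, (c p.1 * ex (2 * Real.pi * p.1 * a / q)) *
      (c' p.2 * ex (2 * Real.pi * p.2 * b / q')) *
      ex (n * (2 * Real.pi * p.1 / q * α + 2 * Real.pi * γ * p.2 / q' * α ^ κ)) := by
    intro n _
    rw [h.eq, h'.eq]
    rw [tsum_mul_tsum_of_summable_norm]
    · congr 1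
      funext p
      have e : ex (2 * Real.pi * p.1 * (α * n + a) / q) * ex (2 * Real.pi * p.2 * (γ * α ^ κ * n + b) / q') =
          ex (2 * Real.pi * p.1 * a / q) * ex (2 * Real.pi * p.2 * b / q') *
          ex (n * (2 * Real.pi * p.1 / q * α + 2 * Real.pi * γ * p.2 / q' * α ^ κ)) := by
        rw [← ex_add, ← ex_add, ← ex_add]
        congr 1
        ring
      calc c p.1 * ex (2 * Real.pi * p.1 * (α * n + a) / q) *
            (c' p.2 * ex (2 * Real.pi * p.2 * (γ * α ^ κ * n + b) / q')) =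
            c p.1 * c' p.2 * (ex (2 * Real.pi * p.1 * (α * n + a) / q) *
              ex (2 * Real.pi * p.2 * (γ * α ^ κ * n + b) / q')) := by ring
        _ = _ := by
            rw [e]
            ring
    · simp only [norm_mul, ex_norm, mul_one]
      exact h.summable
    · simp only [norm_mul, ex_norm, mul_one]
      exact h'.summable
  rw [sum_congr rfl h1, ← Summable.tsum_finsetSum]
  · congr 1
    funext p
    rw [mul_sum]
  · intro n _
    apply Summable.of_norm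
    simp only [norm_mul, ex_norm, mul_one]
    exact h.summable.mul_of_nonneg h'.summable (fun _ => norm_nonneg _) (fun _ => norm_nonneg _)

/-- one pair of moduli -/
theorem pair {κ γ : ℝ} {a b : ℤ} {q q' : ℕ} {G : Finset ℕ} {c c' : ℤ → ℂ} (h : Coef q c)
    (h' : Coef q' c') {R : ℝ} (hR : 1 ≤ R) {B : Set ℝ}
    (hBR : B ⊆ Set.Icc (1 / R) R) {M : ℝ} (hM0 : 0 ≤ M)
    (hM : ∀ p : ℤ × ℤ, p ≠ (0, 0) → ∫ α in Set.Icc (1 / R) R, ‖EE κ γ q q' G p α‖ ≤ M) :
    |(∫ α in B, HH κ γ a b q q' G α) - 2 / q * (2 / q') * G.card * (volume B).toReal| ≤ 100 * M := by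
  set A : ℤ → ℂ := fun k => c k * ex (2 * Real.pi * k * a / q) with hA
  set A' : ℤ → ℂ := fun k => c' k * ex (2 * Real.pi * k * b / q') with hA'
  have hAn : ∀ k, ‖A k‖ = ‖c k‖ := by
    intro k
    rw [hA]
    simp only [norm_mul, ex_norm, mul_one]
  have hA'n : ∀ k, ‖A' k‖ = ‖c' k‖ := by
    intro k
    rw [hA']
    simp only [norm_mul, ex_norm, mul_one]
  have hAs : Summable fun k => ‖A k‖ := by
    simp only [hAn]
    exact h.summable
  have hA's : Summable fun k => ‖A' k‖ := by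
    simp only [hA'n]
    exact h'.summable
  have hvol : volume B ≠ ⊤ := by
    refine ne_top_of_le_ne_top ?_ (measure_mono hBR)
    rw [Real.volume_Icc]
    exact ENNReal.ofReal_ne_top
  have hprod : Summable fun p : ℤ × ℤ => ‖A p.1‖ * ‖A' p.2‖ :=
    hAs.mul_of_nonneg hA's (fun _ => norm_nonneg _) (fun _ => norm_nonneg _)
  have hEi : ∀ p, IntegrableOn (EE κ γ q q' G p) B := fun p =>
    ((EE_contOn κ γ q q' G p hR).integrableOn_compact isCompact_Icc).mono_set hBR
  have hEn : ∀ p, ∫ α in B, ‖EE κ γ q q' G p α‖ ≤ G.card * (volume B).toReal := by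
    intro p
    have h1 : ∫ α in B, ‖EE κ γ q q' G p α‖ ≤ ∫ α in B, (G.card : ℝ) := by
      apply integral_mono (hEi p).norm
      · exact integrableOn_const hvol
      · intro α
        exact EE_norm_le κ γ q q' G p α
    rw [setIntegral_const, smul_eq_mul, mul_comm] at h1
    exact h1
  set F : ℤ × ℤ → ℝ → ℂ := fun p α => A p.1 * A' p.2 * EE κ γ q q' G p α with hF
  have hFi : ∀ p, Integrable (F p) (volume.restrict B) := fun p => (hEi p).const_mul _
  have hFn : ∀ p, ∫ α in B, ‖F p α‖ = ‖A p.1‖ * ‖A' p.2‖ * ∫ α in B, ‖EE κ γ q q' G p α‖ := by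
    intro p
    rw [← integral_const_mul]
    congr 1
    funext α
    rw [hF]
    simp only [norm_mul]
  have hFs : Summable fun p => ∫ α in B, ‖F p α‖ := by
    refine Summable.of_nonneg_of_le (fun p => integral_nonneg fun α => norm_nonneg _) (fun p => ?_)
      (hprod.mul_right (G.card * (volume B).toReal))
    rw [hFn]
    exact mul_le_mul_of_nonneg_left (hEn p) (by positivity)
  have hsum := hasSum_integral_of_summable_integral_norm hFi hFs
  have e1 : ∫ α in B, ∑' p, F p α = ((∫ α in B, HH κ γ a b q q' G α : ℝ) : ℂ) := by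
    rw [← integral_complex_ofReal]
    congr 1
    funext α
    rw [HH_eq h h' α]
  rw [e1] at hsum
  have hI : ∀ p, ∫ α in B, F p α = A p.1 * A' p.2 * ∫ α in B, EE κ γ q q' G p α := by
    intro p
    rw [hF]
    simp only
    rw [integral_const_mul]
  have e2 := hsum.tsum_eq
  rw [hsum.summable.tsum_eq_add_tsum_ite (0, 0)] at e2
  have e3 : ∫ α in B, F (0, 0) α = ((2 / q * (2 / q') * G.card * (volume B).toReal : ℝ) : ℂ) := by
    rw [hI]
    have e4 : ∀ α, EE κ γ q q' G (0, 0) α = (G.card : ℂ) := by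
      intro α
      unfold EE
      simp [ex_zero]
    simp only [e4]
    rw [setIntegral_const, hA, hA']
    simp only
    rw [h.zero, h'.zero]
    simp only [Int.cast_zero, mul_zero, zero_mul, zero_div, ex_zero, mul_one]
    rw [Complex.real_smul]
    unfold Measure.real
    push_cast
    ring
  rw [e3] at e2
  have e5 : ((∫ α in B, HH κ γ a b q q' G α : ℝ) : ℂ) -
      ((2 / q * (2 / q') * G.card * (volume B).toReal : ℝ) : ℂ) =
      ∑' p : ℤ × ℤ, if p = (0, 0) then 0 else ∫ α in B, F p α := by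
    rw [← e2]
    ring
  rw [← Complex.ofReal_sub] at e5
  rw [← Real.norm_eq_abs, ← Complex.norm_real, e5]
  have hb : ∀ p : ℤ × ℤ, ‖(if p = (0, 0) then (0 : ℂ) else ∫ α in B, F p α)‖ ≤ ‖A p.1‖ * ‖A' p.2‖ * M := by
    intro p
    by_cases hp : p = (0, 0)
    · rw [if_pos hp, norm_zero]
      positivity
    · rw [if_neg hp, hI, norm_mul, norm_mul]
      apply mul_le_mul_of_nonneg_left _ (by positivity)
      refine (norm_integral_le_integral_norm _).trans ((setIntegral_mono_set ?_ ?_ ?_).trans (hM p hp))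
      · exact ((EE_contOn κ γ q q' G p hR).integrableOn_compact isCompact_Icc).norm
      · exact Eventually.of_forall fun α => norm_nonneg _
      · exact hBR.eventuallyLE
  have hbs : Summable fun p : ℤ × ℤ => ‖A p.1‖ * ‖A' p.2‖ * M := hprod.mul_right M
  refine (tsum_of_norm_bounded hbs.hasSum hb).trans ?_
  rw [tsum_mul_right]
  have e6 : ∑' p : ℤ × ℤ, ‖A p.1‖ * ‖A' p.2‖ = (∑' k, ‖A k‖) * ∑' k, ‖A' k‖ :=
    (hAs.tsum_mul_tsum hA's hprod).symm
  rw [e6]
  have e7 : (∑' k, ‖A k‖) ≤ 10 := by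
    simp only [hAn]
    exact h.le
  have e8 : (∑' k, ‖A' k‖) ≤ 10 := by
    simp only [hA'n]
    exact h'.le
  have e9 : 0 ≤ ∑' k, ‖A' k‖ := tsum_nonneg fun _ => norm_nonneg _
  have e10 : (∑' k, ‖A k‖) * ∑' k, ‖A' k‖ ≤ 10 * 10 := mul_le_mul e7 e8 e9 (by norm_num)
  nlinarith

/-! ### the sieve inequality -/

theorem hat_eq (q : ℕ) (hq : 1 ≤ q) (y : ℝ) (S : Finset ℤ) (hS : ∀ m : ℤ, |y - m - 1 / 2| < 1 → m ∈ S) :
    hat q y = ∑ m ∈ S, if (q : ℤ) ∣ m then 2 * tri (y - m - 1 / 2) else 0 := by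
  have hq0 : (q : ℤ) ≠ 0 := by
    have : 0 < q := hq
    exact_mod_cast this.ne'
  set F : ℤ → ℝ := fun m => if (q : ℤ) ∣ m then 2 * tri (y - m - 1 / 2) else 0 with hF
  have h1 : Function.Injective fun k : ℤ => (q : ℤ) * k := fun k k' hk => mul_left_cancel₀ hq0 hk
  have h2 : Function.support F ⊆ Set.range fun k : ℤ => (q : ℤ) * k := by
    intro m hm
    rw [Function.mem_support, hF] at hm
    simp only at hm
    by_contra h3
    apply hm
    rw [if_neg]
    rintro ⟨k, hk⟩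
    exact h3 ⟨k, hk.symm⟩
  have h3 := h1.tsum_eq h2
  have h4 : hat q y = ∑' k : ℤ, F ((q : ℤ) * k) := by
    unfold hat
    congr 1
    funext k
    rw [hF]
    simp only
    rw [if_pos (dvd_mul_right _ _)]
    push_cast
    ring_nf
  rw [h4, h3]
  apply tsum_eq_sum
  intro m hm
  rw [hF]
  simp only
  split_ifs
  · rw [tri_eq_zero, mul_zero]
    by_contra h5
    exact hm (hS m (not_le.1 h5))
  · rfl

/-- Selberg's upper bound function -/
noncomputable def SS (l : ℕ → ℝ) (D : ℕ) (a : ℤ) (x : ℝ) : ℝ :=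
  ∑ z ∈ Icc 1 D ×ˢ Icc 1 D, l z.1 * l z.2 * hat (Nat.lcm z.1 z.2) (x + a)

theorem SS_eq (l : ℕ → ℝ) (D : ℕ) (a : ℤ) (x : ℝ) :
    SS l D a x = ∑ m ∈ Icc (⌊x⌋ + a - 5) (⌊x⌋ + a + 5), 2 * tri (x + a - m - 1 / 2) *
      (∑ d ∈ Icc 1 D, if (d : ℤ) ∣ m then l d else 0) ^ 2 := by
  have hS : ∀ m : ℤ, |x + a - m - 1 / 2| < 1 → m ∈ Icc (⌊x⌋ + a - 5) (⌊x⌋ + a + 5) := by
    intro m hm
    rw [abs_lt] at hm
    have h1 := Int.floor_le x
    have h2 := Int.lt_floor_add_one x
    rw [mem_Icc]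
    constructor
    · have : ((⌊x⌋ + a - 5 : ℤ) : ℝ) ≤ m := by
        push_cast
        linarith
      exact_mod_cast this
    · have : (m : ℝ) ≤ ((⌊x⌋ + a + 5 : ℤ) : ℝ) := by
        push_cast
        linarith
      exact_mod_cast this
  unfold SS
  have h1 : ∀ z ∈ Icc 1 D ×ˢ Icc 1 D, l z.1 * l z.2 * hat (Nat.lcm z.1 z.2) (x + a) =
      ∑ m ∈ Icc (⌊x⌋ + a - 5) (⌊x⌋ + a + 5), 2 * tri (x + a - m - 1 / 2) *
        ((if (z.1 : ℤ) ∣ m then l z.1 else 0) * (if (z.2 : ℤ) ∣ m then l z.2 else 0)) := by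
    intro z hz
    rw [mem_product, mem_Icc, mem_Icc] at hz
    rw [hat_eq _ (Nat.lcm_pos (by omega) (by omega)) _ _ hS, mul_sum]
    refine sum_congr rfl fun m _ => ?_
    have h2 : ((Nat.lcm z.1 z.2 : ℕ) : ℤ) ∣ m ↔ (z.1 : ℤ) ∣ m ∧ (z.2 : ℤ) ∣ m := by
      rw [Int.natCast_dvd, Int.natCast_dvd, Int.natCast_dvd]
      exact Nat.lcm_dvd_iff
    by_cases h3 : (z.1 : ℤ) ∣ m
    · by_cases h4 : (z.2 : ℤ) ∣ m
      · rw [if_pos (h2.2 ⟨h3, h4⟩), if_pos h3, if_pos h4]
        ring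
      · rw [if_neg (fun h => h4 (h2.1 h).2), if_neg h4]
        ring
    · rw [if_neg (fun h => h3 (h2.1 h).1), if_neg h3]
      ring
  rw [sum_congr rfl h1, sum_comm]
  refine sum_congr rfl fun m _ => ?_
  rw [← mul_sum, sq, sum_mul_sum, ← sum_product']

theorem SS_nonneg (l : ℕ → ℝ) (D : ℕ) (a : ℤ) (x : ℝ) : 0 ≤ SS l D a x := by
  rw [SS_eq]
  refine sum_nonneg fun m _ => ?_
  have := tri_nonneg (x + a - m - 1 / 2)
  positivity

theorem one_le_SS (l : ℕ → ℝ) (hl : l 1 = 1) (D : ℕ) (hD : 1 ≤ D) (a : ℤ) (x : ℝ) (hp : PP (⌊x⌋ + a))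
    (hDp : (D : ℤ) < ⌊x⌋ + a) : 1 ≤ SS l D a x := by
  rw [SS_eq]
  have hm : ⌊x⌋ + a ∈ Icc (⌊x⌋ + a - 5) (⌊x⌋ + a + 5) := by
    rw [mem_Icc]
    constructor <;> linarith
  refine le_trans ?_ (single_le_sum (f := fun m : ℤ => 2 * tri (x + a - m - 1 / 2) *
      (∑ d ∈ Icc 1 D, if (d : ℤ) ∣ m then l d else 0) ^ 2) (fun m _ => ?_) hm)
  · have h1 : ∑ d ∈ Icc 1 D, (if (d : ℤ) ∣ ⌊x⌋ + a then l d else 0) = 1 := by
      rw [sum_eq_single 1]
      · simp [hl]
      · intro d hd hd1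
        rw [mem_Icc] at hd
        rw [if_neg]
        intro h2
        have h3 : d ∣ (⌊x⌋ + a).toNat := by
          have h4 : ((⌊x⌋ + a).toNat : ℤ) = ⌊x⌋ + a := Int.toNat_of_nonneg (by omega)
          rw [← h4] at h2
          exact_mod_cast h2
        rcases (Nat.dvd_prime hp).1 h3 with h5 | h5
        · exact hd1 h5
        · omega
      · intro h2
        exfalso
        apply h2
        rw [mem_Icc]
        omega
    have h2 : (1 : ℝ) / 2 ≤ tri (x + a - ((⌊x⌋ + a : ℤ) : ℝ) - 1 / 2) := by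
      unfold tri
      have h3 := Int.floor_le x
      have h4 := Int.lt_floor_add_one x
      have h5 : |x + a - ((⌊x⌋ + a : ℤ) : ℝ) - 1 / 2| ≤ 1 / 2 := by
        rw [abs_le]
        push_cast
        constructor <;> linarith
      exact le_max_of_le_right (by linarith)
    rw [h1]
    linarith
  · have := tri_nonneg (x + a - m - 1 / 2)
    positivity

end Pool.Agent.D0H96.CC
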